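import Pool.Agent.Helper56.LD.Goals

/-!
Packet CO12 for MP_0152c0_gt: the graph of the hub sets is closed.
-/

set_option autoImplicit false

namespace Pool.Agent.Helper69.LD

open Pool.Agent.Helper56.LD Set Topology

abbrev PP := (ℕ → Lab) × (ℕ → Lab)

theorem cl12 (j l : ℕ) (Q : Lab → Lab → Prop) : IsClopen {p : PP | Q (p.1 j) (p.2 l)} := by
  have h : Continuous (fun p : PP => ((p.1 j, p.2 l) : Lab × Lab)) := by fun_prop
  exact (isClopen_discrete {x : Lab × Lab | Q x.1 x.2}).preimage h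

theorem cl1 (j : ℕ) (Q : Lab → Prop) : IsClopen {p : PP | Q (p.1 j)} := cl12 j 0 (fun x _ => Q x)

theorem cl2 (l : ℕ) (Q : Lab → Prop) : IsClopen {p : PP | Q (p.2 l)} := cl12 0 l (fun _ x => Q x)

theorem c_const (P : Prop) : IsClosed {_p : PP | P} := by
  by_cases h : P
  · simp [h]
  · simp [h]

theorem c_and {A B : PP → Prop} (hA : IsClosed {p | A p}) (hB : IsClosed {p | B p}) :
    IsClosed {p | A p ∧ B p} := hA.inter hB

theorem c_or {A B : PP → Prop} (hA : IsClosed {p | A p}) (hB : IsClosed {p | B p}) :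
    IsClosed {p | A p ∨ B p} := hA.union hB

theorem c_all {ι : Sort*} {A : ι → PP → Prop} (hA : ∀ i, IsClosed {p | A i p}) :
    IsClosed {p | ∀ i, A i p} := by
  rw [setOf_forall]
  exact isClosed_iInter hA

theorem c_impc {P : Prop} {A : PP → Prop} (hA : P → IsClosed {p | A p}) :
    IsClosed {p | P → A p} := by
  by_cases h : P
  · simpa [h] using hA h
  · simp [h]

theorem c_imp {A B : PP → Prop} (hA : IsOpen {p | A p}) (hB : IsClosed {p | B p}) :
    IsClosed {p | A p → B p} := by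
  have : {p : PP | A p → B p} = {p | A p}ᶜ ∪ {p | B p} := by
    ext p
    simp [imp_iff_not_or]
  rw [this]
  exact hA.isClosed_compl.union hB

theorem c_ex (n : ℕ) {A : ℕ → PP → Prop} (hA : ∀ i, IsClosed {p | A i p}) :
    IsClosed {p | ∃ i, i < n ∧ A i p} := by
  have : {p : PP | ∃ i, i < n ∧ A i p} = ⋃ i ∈ Iio n, {p | A i p} := by
    ext p
    simp
  rw [this]
  exact (finite_Iio n).isClosed_biUnion fun i _ => hA i

theorem o_IsN (n N : ℕ) : IsOpen {p : PP | IsN n p.1 N} := by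
  have : {p : PP | IsN n p.1 N} =
      {_p : PP | n ≤ N} ∩ ({p : PP | IsMain (p.1 N)} ∩
        ⋂ j ∈ Iio N, {p : PP | n ≤ j → IsAux (p.1 j)}) := by
    ext p
    simp only [mem_setOf_eq, mem_inter_iff, mem_iInter, mem_Iio, IsN]
    constructor
    · rintro ⟨h1, h2, h3⟩
      exact ⟨h1, h2, fun j hj hn => h3 j hn hj⟩
    · rintro ⟨h1, h2, h3⟩
      exact ⟨h1, h2, fun j hn hj => h3 j hj hn⟩
  rw [this]
  refine IsOpen.inter (by by_cases h : n ≤ N <;> simp [h]) (IsOpen.inter (cl1 N IsMain).2 ?_)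
  exact (finite_Iio N).isOpen_biInter fun j _ => (cl1 j (fun x => n ≤ j → IsAux x)).2

theorem c_eqmu (N l : ℕ) : IsClosed {p : PP | p.2 l = mu N p.1 l} :=
  (cl12 (max (16 * l + 4) N) l (fun x y => y = dec x)).1

theorem c_QQ (i N : ℕ) : IsClosed {p : PP | QQ i N p.1 p.2} := by
  unfold QQ
  refine c_all fun l => c_impc fun _ => ?_
  exact (cl12 (max (16 * l + 4) N) l (fun x y => IsMain y → y = dec x)).1

theorem c_MainI (i N : ℕ) : IsClosed {p : PP | MainI i N p.1 p.2} := by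
  unfold MainI
  refine c_and (c_all fun l => c_impc fun _ => c_eqmu N l) (c_or ?_ ?_)
  · refine c_and (c_const _) (c_or (c_QQ i N) (c_or (c_const _) ?_))
    exact (cl2 _ IsAux).1
  · refine c_and (c_const _) (c_and (c_QQ i N) ?_)
    exact (cl2 _ IsMain).1

theorem c_MainC (N : ℕ) : IsClosed {p : PP | MainC N p.1 p.2} := by
  unfold MainC
  refine c_and (c_impc fun _ => c_all fun l => c_eqmu N l) (c_all fun i => c_impc fun _ =>
    c_impc fun _ => c_MainI i N)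

theorem leg_iff (n : ℕ) (κ : Bool) (τ : Fin 3) (e : ℕ → Lab) : Leg n κ τ e ↔
    ∃ ν, ν < n ∧ ∃ k, k < n ∧ (IsNu e ν ∧ IsK ν k ∧
    (2 ^ (k + 1) ≤ n ∨
      (2 ^ k < n ∧ n < 2 ^ (k + 1) ∧ 2 ^ (k + 1) - n < ν ∧ BB κ τ (2 ^ (k + 1) - n) e))) := by
  constructor
  · rintro ⟨ν, k, h1, h2, h3⟩
    have hk : 2 ^ k < n := by
      rcases h3 with h | ⟨h, _⟩
      · have : 0 < 2 ^ k := by positivity
        rw [pow_succ] at h
        omega
      · exact h
    exact ⟨ν, lt_of_le_of_lt h2.1 hk, k, lt_trans Nat.lt_two_pow_self hk, h1, h2, h3⟩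
  · rintro ⟨ν, _, k, _, h1, h2, h3⟩
    exact ⟨ν, k, h1, h2, h3⟩

theorem c_BB (κ : Bool) (τ : Fin 3) (m : ℕ) : IsClosed {p : PP | BB κ τ m p.2} := by
  unfold BB
  refine c_and (c_all fun j => c_impc fun _ => ?_) (c_or ?_ ?_)
  · exact (cl2 j (fun x => x = Sum.inr (κ, τ + 2))).1
  · exact (cl2 (m - 1) (fun x => x = Sum.inr (κ, τ + 1))).1
  · exact (cl2 (m - 1) (fun x => x = Sum.inr (κ, τ + 2))).1

theorem c_IsNu (ν : ℕ) : IsClosed {p : PP | IsNu p.2 ν} := by
  unfold IsNu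
  exact c_and (cl2 ν IsMain).1 (c_all fun j => c_impc fun _ => (cl2 j IsAux).1)

theorem c_Leg (n : ℕ) (κ : Bool) (τ : Fin 3) : IsClosed {p : PP | Leg n κ τ p.2} := by
  simp only [leg_iff]
  refine c_ex n fun ν => c_ex n fun k => ?_
  refine c_and (c_IsNu ν) (c_and (c_const _) (c_or (c_const _) ?_))
  exact c_and (c_const _) (c_and (c_const _) (c_and (c_const _) (c_BB κ τ _)))

theorem c_AuxOK (n : ℕ) (κ : Bool) (τ : Fin 3) : IsClosed {p : PP | AuxOK n κ τ p.2} := by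
  unfold AuxOK
  refine c_or (cl2 0 IsMain).1 (c_or ?_ (c_Leg n κ τ))
  exact (cl2 0 (fun x => ∃ t, x = Sum.inr (!κ, t))).1

theorem stmtC1 (hES : StmtES) : StmtC1 := by
  intro n _
  have h1 : IsClosed {p : PP | p.1 ∈ ES} := hES.1.preimage continuous_fst
  have h2 : IsClosed {p : PP | p.2 ∈ ES} := hES.1.preimage continuous_snd
  unfold SS
  refine c_and h1 ?_
  show IsClosed {p : PP | p.2 ∈ ES ∧ (∀ N, IsN n p.1 N → MainC N p.1 p.2) ∧
    ∀ κ τ, p.1 n = Sum.inr (κ, τ) → AuxOK n κ τ p.2}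
  refine c_and h2 (c_and (c_all fun N => c_imp (o_IsN n N) (c_MainC N)) ?_)
  refine c_all fun κ => c_all fun τ => c_imp ?_ (c_AuxOK n κ τ)
  exact (cl1 n (fun x => x = Sum.inr (κ, τ))).2

end Pool.Agent.Helper69.LD
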