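import Pool.Agent.Helper56.LD.Goals

/-!
Packet CO14 for MP_0152c0_gt: lower semicontinuity of the saturations.
-/

set_option autoImplicit false

namespace Pool.Agent.Helper69.LD

open Pool.Agent.Helper56.LD Set Topology

theorem ub_congr {b : ℕ → Lab → Prop} {e s : ℕ → Lab} {m : ℕ} (h : ∀ j, j ≤ m → e j = s j) :
    UB b e m ↔ UB b s m := by
  unfold UB
  constructor
  · intro h1 j hj hm
    rw [← h j hm]
    exact h1 j hj hm
  · intro h1 j hj hm
    rw [h j hm]
    exact h1 j hj hm

theorem ub_mono {b : ℕ → Lab → Prop} {e : ℕ → Lab} {m m' : ℕ} (h : m ≤ m') (h' : UB b e m') :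
    UB b e m := fun j hj hm => h' j hj (hm.trans h)

theorem main_or_aux (l : Lab) : IsMain l ∨ IsAux l := by
  rcases l with τ | q
  · exact Or.inl ⟨τ, rfl⟩
  · exact Or.inr ⟨q, rfl⟩

theorem not_both {l : Lab} (h1 : IsMain l) (h2 : IsAux l) : False := by
  obtain ⟨τ, rfl⟩ := h1
  obtain ⟨q, hq⟩ := h2
  cases hq

theorem isN_unique {n : ℕ} {a : ℕ → Lab} {N N' : ℕ} (h : IsN n a N) (h' : IsN n a N') :
    N = N' := by
  rcases lt_trichotomy N N' with hl | hl | hl
  · exact (not_both h.2.1 (h'.2.2 N h.1 hl)).elim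
  · exact hl
  · exact (not_both h'.2.1 (h.2.2 N' h'.1 hl)).elim

theorem no_isN_aux {n : ℕ} {a : ℕ → Lab} (h : ∀ N, ¬ IsN n a N) : ∀ j, n ≤ j → IsAux (a j) := by
  intro j
  induction j using Nat.strong_induction_on with
  | _ j ih =>
    intro hj
    rcases main_or_aux (a j) with hm | ha
    · exact (h j ⟨hj, hm, fun i hi hij => ih i hij hi⟩).elim
    · exact ha

theorem par_add (n k : ℕ) : par (n + 2 * k) = par n := by
  unfold par
  congr 1
  simp

theorem stmtC2s (hES : StmtES) (hTail : StmtTail) (hExt : StmtExt) (hC2 : StmtC2) : StmtC2s := by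
  intro u n n' a hn hn' ha e he k
  obtain ⟨-, -, -, hES4, hES5⟩ := hES
  have hn'1 : 1 ≤ n' := by rcases hn' with h | h <;> omega
  have hnn' : n ≤ n' := by rcases hn' with h | h <;> omega
  obtain ⟨heE, s, hs, heqv⟩ := he
  generalize hb : blk u n (ltr u n (a n)) = b at *
  by_cases hcase : ∃ m, ¬ UB b e m
  · -- case 1
    classical
    obtain ⟨N, hN, hmin⟩ : ∃ N, ¬ UB b e N ∧ ∀ m < N, UB b e m := by
      refine ⟨Nat.find hcase, Nat.find_spec hcase, fun m hm => ?_⟩
      exact not_not.1 (Nat.find_min hcase hm)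
    have hbN : 1 ≤ N ∧ b N (e N) := by
      by_contra hcon
      apply hN
      intro j hj hjN hbj
      rcases Nat.lt_or_ge j N with hlt | hge
      · exact hmin j hlt j hj le_rfl hbj
      · have : j = N := le_antisymm hjN hge
        subst this
        exact hcon ⟨hj, hbj⟩
    have htail : ∀ j, N ≤ j → e j = s j := fun j hj =>
      (heqv j).2 fun h => hN (ub_mono hj h)
    obtain ⟨K, hK⟩ := hC2 n' a hn'1 ha s hs (max k (N + 1))
    refine ⟨K, fun a' ha' haa' => ?_⟩
    obtain ⟨s', hs', hss'⟩ := hK a' ha' haa'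
    have hNs' : s' N = e N := by
      rw [hss' N (lt_of_lt_of_le (Nat.lt_succ_self N) (le_max_right _ _)), htail N le_rfl]
    refine ⟨fun j => if j < N then e j else s' j, ⟨?_, s', hs', ?_⟩, ?_⟩
    · exact hES5 e heE s' hs'.1 N hNs'.symm
    · intro m
      have key1 : m < N → UB b (fun j => if j < N then e j else s' j) m := by
        intro hm
        refine (ub_congr (s := e) fun j hj => ?_).2 (hmin m hm)
        simp [lt_of_le_of_lt hj hm]
      have key2 : m < N → UB b s' m := by
        intro hm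
        refine (ub_congr (s := s) fun j hj => ?_).2 (((heqv m).1).1 (hmin m hm))
        exact hss' j (lt_of_lt_of_le (lt_of_le_of_lt hj hm)
          ((Nat.le_succ N).trans (le_max_right _ _)))
      have key3 : N ≤ m → ¬ UB b (fun j => if j < N then e j else s' j) m := by
        intro hm h
        have := h N hbN.1 hm
        simp only [lt_irrefl, if_false] at this
        rw [hNs'] at this
        exact this hbN.2
      have key4 : N ≤ m → ¬ UB b s' m := by
        intro hm h
        have := h N hbN.1 hm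
        rw [hNs'] at this
        exact this hbN.2
      rcases Nat.lt_or_ge m N with hlt | hge
      · exact ⟨⟨fun _ => key2 hlt, fun _ => key1 hlt⟩, fun h => (h (key1 hlt)).elim⟩
      · refine ⟨⟨fun h => (key3 hge h).elim, fun h => (key4 hge h).elim⟩, fun _ => ?_⟩
        simp [not_lt.2 hge]
    · intro j hj
      rcases Nat.lt_or_ge j N with hlt | hge
      · simp [hlt]
      · simp only [not_lt.2 hge, if_false]
        rw [hss' j (lt_of_lt_of_le hj (le_max_left _ _)), htail j hge]
  · -- case 2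
    have hub : ∀ m, UB b e m := fun m => not_not.1 fun h => hcase ⟨m, h⟩
    have hubs : ∀ m, UB b s m := fun m => ((heqv m).1).1 (hub m)
    have hnoN : ∀ N, ¬ IsN n' a N := by
      intro N hN
      obtain ⟨k0, hk0, -⟩ := hTail N
      have hmain := hk0 a s ha hN.2.1 (hs.2.1 N hN)
      rcases h : a n with τ | ⟨κ, t, q⟩
      · have h1 : n + 2 * k0 ≥ k0 := by omega
        obtain ⟨σ, hσ⟩ := hmain (n + 2 * k0) h1
        refine hubs (n + 2 * k0) (n + 2 * k0) (by omega) le_rfl ?_
        rw [hσ, ← hb, h]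
        show par (n + 2 * k0) = par n
        exact par_add n k0
      · obtain ⟨σ, hσ⟩ := hmain (k0 + 1) (by omega)
        refine hubs (k0 + 1) (k0 + 1) (by omega) le_rfl ?_
        rw [hσ, ← hb, h]
        trivial
    have haux := no_isN_aux hnoN
    obtain ⟨⟨κ, t2⟩, hk2⟩ := haux n' le_rfl
    obtain ⟨τ, hτ⟩ := hES4 a ha n n' κ t2 hnn' hk2
    have hen : ∃ t, e n = Sum.inr (!κ, t) := by
      have h1 := hub n n hn le_rfl
      rw [← hb, hτ] at h1
      rcases hx : e n with σ | ⟨κ', t⟩
      · rw [hx] at h1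
        exact (h1 trivial).elim
      · rw [hx] at h1
        refine ⟨t, ?_⟩
        have hne : κ' ≠ κ := by
          intro hk
          apply h1
          exact ⟨hk, Or.inl le_rfl⟩
        have : κ' = !κ := by
          cases κ <;> cases κ' <;> simp_all
        rw [this]
    obtain ⟨t3, ht3⟩ := hen
    obtain ⟨t4, ht4⟩ := hES4 e heE 0 n (!κ) t3 (Nat.zero_le _) ht3
    obtain ⟨K0, hK0⟩ := hExt (max k 1)
    refine ⟨max K0 (n' + 1), fun a' ha' haa' => ?_⟩
    have han' : a' n' = Sum.inr (κ, t2) := by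
      rw [haa' n' (lt_of_lt_of_le (Nat.lt_succ_self n') (le_max_right _ _)), hk2]
    have haux' : ∀ f : ℕ → Lab, f 0 = Sum.inr (!κ, t4) → ∀ κ1 τ1, a' n' = Sum.inr (κ1, τ1) →
        AuxOK n' κ1 τ1 f := by
      intro f hf κ1 τ1 h1
      rw [han'] at h1
      have h2 : κ = κ1 := by
        have := Sum.inr.inj h1
        exact congrArg Prod.fst this
      subst h2
      exact Or.inr (Or.inl ⟨t4, hf⟩)
    suffices h : ∃ e' ∈ SS n' a', ∀ j < k, e' j = e j by
      obtain ⟨e', he', hee'⟩ := h
      exact ⟨e', ⟨he'.1, e', he', fun m => ⟨Iff.rfl, fun _ => rfl⟩⟩, hee'⟩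
    by_cases hex : ∃ N', IsN n' a' N'
    · obtain ⟨N', hN'⟩ := hex
      have hge : max K0 (n' + 1) ≤ N' := by
        by_contra hlt
        have h1 := haa' N' (not_le.1 hlt)
        have h2 := haux N' hN'.1
        rw [← h1] at h2
        exact not_both hN'.2.1 h2
      obtain ⟨e', he'E, he'M, he'k, -⟩ := hK0 N' ((le_max_left _ _).trans hge) a' ha' hN'.2.1 e heE
      refine ⟨e', ⟨he'E, ?_, ?_⟩, fun j hj => he'k j (lt_of_lt_of_le hj (le_max_left _ _))⟩
      · intro N'' hN''
        rw [isN_unique hN'' hN']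
        exact he'M
      · apply haux'
        rw [he'k 0 (lt_of_lt_of_le Nat.one_pos (le_max_right _ _)), ht4]
    · refine ⟨e, ⟨heE, ?_, haux' e ht4⟩, fun j _ => rfl⟩
      intro N'' hN''
      exact (hex ⟨N'', hN''⟩).elim

end Pool.Agent.Helper69.LD
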