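import Pool.Agent.Helper56.LD.Goals
import Pool.Agent.Helper56.LD.Basics

/-!
Packet SM8 for MP_0152c0_gt: the set where the value misses an open set is closed.
-/

set_option autoImplicit false

namespace Pool.Agent.Helper69.LD

open Pool.Agent.Helper56.LD Set Topology

section
variable {L Ω : Type} [DecidableEq L] [DecidableEq Ω] [TopologicalSpace L] [DiscreteTopology L]

omit [DecidableEq L] in
theorem open_agree (p : (ℕ → L) × ℝ) (M : ℕ) :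
    IsOpen {q : (ℕ → L) × ℝ | ∀ j < M, q.1 j = p.1 j} := by
  have : {q : (ℕ → L) × ℝ | ∀ j < M, q.1 j = p.1 j} =
      ⋂ j ∈ Iio M, (fun q : (ℕ → L) × ℝ => q.1 j) ⁻¹' {p.1 j} := by
    ext q
    simp
  rw [this]
  refine (finite_Iio M).isOpen_biInter fun j _ => ?_
  exact (isOpen_discrete _).preimage ((continuous_apply j).comp continuous_fst)

variable [Finite L] [Finite Ω]

theorem patch_closed (hLSC : StmtLSC) (Z : Sys L Ω) {U : Set (Amb L Ω)} (hU : IsOpen U)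
    {n n' : ℕ} (hn : 1 ≤ n) (hn' : n' = n ∨ n' = n + 1) {J : Set ℝ} (hJ : IsClosed J)
    {f : ℝ → ℝ} (hf : Continuous f) (hfJ : ∀ x ∈ J, f x ∈ Icc (0 : ℝ) 1) :
    IsClosed {p : (ℕ → L) × ℝ | p.1 ∈ Z.E ∧ p.2 ∈ J ∧
      GS Z.lt (Z.bl n (Z.lt n (p.1 n))) Z.E (Z.S n' p.1) (f p.2) ∩ U = ∅} := by
  have hn'1 : 1 ≤ n' := by rcases hn' with h | h <;> omega
  rw [← isOpen_compl_iff, isOpen_iff_mem_nhds]
  intro p hp
  by_cases h1 : p.1 ∈ Z.E
  swap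
  · have : {q : (ℕ → L) × ℝ | q.1 ∈ Z.Eᶜ} ∈ 𝓝 p :=
      (Z.E_closed.isOpen_compl.preimage continuous_fst).mem_nhds h1
    exact Filter.mem_of_superset this fun q hq hq' => hq hq'.1
  by_cases h2 : p.2 ∈ J
  swap
  · have : {q : (ℕ → L) × ℝ | q.2 ∈ Jᶜ} ∈ 𝓝 p :=
      (hJ.isOpen_compl.preimage continuous_snd).mem_nhds h2
    exact Filter.mem_of_superset this fun q hq hq' => hq hq'.2.1
  have h3 : (GS Z.lt (Z.bl n (Z.lt n (p.1 n))) Z.E (Z.S n' p.1) (f p.2) ∩ U).Nonempty := by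
    rw [Set.nonempty_iff_ne_empty]
    intro h
    exact hp ⟨h1, h2, h⟩
  have hl := hLSC L Ω Z.lt (Z.bl n (Z.lt n (p.1 n))) Z.E {a | a ∈ Z.E ∧ a n = p.1 n} (Z.S n')
    (fun a ha => Z.S_sub n' a hn'1 ha.1)
    (fun a ha e he k => by
      obtain ⟨K, hK⟩ := Z.c2 n' a hn'1 ha.1 e he k
      exact ⟨K, fun a' ha' h => hK a' ha'.1 h⟩)
    (fun a ha e he k => by
      have han : a n = p.1 n := ha.2
      have he' : e ∈ sat (Z.bl n (Z.lt n (a n))) Z.E (Z.S n' a) := by rw [han]; exact he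
      obtain ⟨K, hK⟩ := Z.c2s n n' a hn hn' ha.1 e he' k
      refine ⟨K, fun a' ha' h => ?_⟩
      obtain ⟨e', he', h'⟩ := hK a' ha'.1 h
      rw [han] at he'
      exact ⟨e', he', h'⟩)
    p.1 ⟨h1, rfl⟩ (f p.2) (hfJ _ h2) U hU h3
  obtain ⟨K, ε, hε, hK⟩ := hl
  have o1 : {q : (ℕ → L) × ℝ | ∀ j < max K (n + 1), q.1 j = p.1 j} ∈ 𝓝 p :=
    (open_agree p _).mem_nhds fun j _ => rfl
  have o2 : {q : (ℕ → L) × ℝ | |f q.2 - f p.2| < ε} ∈ 𝓝 p := by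
    refine IsOpen.mem_nhds ?_ ?_
    · exact isOpen_lt (by fun_prop) continuous_const
    · show |f p.2 - f p.2| < ε
      simpa using hε
  refine Filter.mem_of_superset (Filter.inter_mem o1 o2) ?_
  rintro q ⟨hq1, hq2⟩ ⟨hq3, hq4, hq5⟩
  have hqn : q.1 n = p.1 n := hq1 n (lt_of_lt_of_le (Nat.lt_succ_self n) (le_max_right _ _))
  have := hK q.1 ⟨hq3, hqn⟩ (fun j hj => hq1 j (lt_of_lt_of_le hj (le_max_left _ _))) (f q.2)
    (hfJ _ hq4) hq2
  rw [← hqn, hq5] at this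
  exact Set.not_nonempty_empty this

theorem patch_compact (hLSC : StmtLSC) (Z : Sys L Ω) {U : Set (Amb L Ω)} (hU : IsOpen U)
    {n n' : ℕ} (m : ℕ) (hn : 1 ≤ n) (hn' : n' = n ∨ n' = n + 1) {J : Set ℝ} (hJ : IsCompact J)
    {f : ℝ → ℝ} (hf : Continuous f) (hfJ : ∀ x ∈ J, f x ∈ Icc (0 : ℝ) 1) :
    IsClosed {x : Amb L Ω | ∃ a ∈ Z.E, ∃ w ∈ J, x = pt Z.lt m a w ∧
      GS Z.lt (Z.bl n (Z.lt n (a n))) Z.E (Z.S n' a) (f w) ∩ U = ∅} := by
  have : CompactSpace L := Finite.compactSpace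
  have h1 := patch_closed hLSC Z hU hn hn' hJ.isClosed hf hfJ
  have h2 : IsCompact {p : (ℕ → L) × ℝ | p.1 ∈ Z.E ∧ p.2 ∈ J ∧
      GS Z.lt (Z.bl n (Z.lt n (p.1 n))) Z.E (Z.S n' p.1) (f p.2) ∩ U = ∅} :=
    (Z.E_closed.isCompact.prod hJ).of_isClosed_subset h1 fun p hp => ⟨hp.1, hp.2.1⟩
  have h3 := (h2.image (continuous_pt Z.lt m)).isClosed
  convert h3 using 1
  ext x
  constructor
  · rintro ⟨a, ha, w, hw, rfl, h⟩
    exact ⟨(a, w), ⟨ha, hw, h⟩, rfl⟩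
  · rintro ⟨⟨a, w⟩, ⟨ha, hw, h⟩, rfl⟩
    exact ⟨a, ha, w, hw, rfl, h⟩

omit [DecidableEq L] [TopologicalSpace L] [DiscreteTopology L] [Finite L] [Finite Ω] in
theorem star_claim {ω0 : Ω} {r ε : ℝ} (hr : 0 ≤ r) {z : Amb L Ω} {ω : Ω} {t : ℝ}
    (hz : ∀ ω', z.2.2 ω' = if ω' = ω then t else 0)
    (h : ∀ ω', |z.2.2 ω' - (cpt (L := L) ω0 r).2.2 ω'| < if 0 < r then min ε (r / 2) else ε) :
    cpt (L := L) ω0 r = cpt ω r ∧ |t - r| < ε := by
  rcases hr.eq_or_lt with h0 | h0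
  · subst h0
    constructor
    · refine amb_ext rfl (fun _ _ => rfl) fun ω' => ?_
      simp
    · have := h ω
      rw [hz] at this
      simpa using this
  · have h1 := h ω0
    rw [hz] at h1
    simp only [cpt_star, if_true, h0] at h1
    by_cases hω : ω0 = ω
    · subst hω
      simp only [if_true] at h1
      exact ⟨rfl, lt_of_lt_of_le h1 (min_le_left _ _)⟩
    · simp only [hω, if_false, zero_sub, abs_neg, abs_of_pos h0] at h1
      have := lt_of_lt_of_le h1 (min_le_right _ _)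
      linarith

end

theorem stmtMiss (hCompact : StmtCompact) (hLSC : StmtLSC)
    (hCore : StmtLSCcore) : StmtMiss := by
  intro L Ω _ _ _ _ _ _ Z U hU
  have hMc : IsClosed (MSet Z.lt Z.E) := (hCompact L Ω Z.lt Z.E Z.E_closed).isClosed
  set W : Set (Amb L Ω) := {x | x ∈ MSet Z.lt Z.E ∧ ∃ V, IsVal Z x V ∧ V ∩ U = ∅} with hW
  refine isClosed_of_closure_subset ?_
  intro x hx
  have hxM : x ∈ MSet Z.lt Z.E := by
    have : W ⊆ MSet Z.lt Z.E := fun y hy => hy.1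
    exact hMc.closure_subset_iff.2 this hx
  rcases lt_or_ge 0 x.1 with hpos | hneg
  · -- off the core
    obtain ⟨N, hN⟩ : ∃ N : ℕ, (1 : ℝ) / 2 ^ N < x.1 := by
      obtain ⟨N, hN⟩ := exists_pow_lt_of_lt_one hpos (by norm_num : (1 / 2 : ℝ) < 1)
      exact ⟨N, by rw [← one_div_pow]; exact hN⟩
    have hO : IsOpen {z : Amb L Ω | (1 : ℝ) / 2 ^ N < z.1} :=
      isOpen_lt continuous_const continuous_fst
    let F0 : Set (Amb L Ω) := {x | ∃ a ∈ Z.E, ∃ w ∈ Icc (0 : ℝ) 1, x = pt Z.lt 0 a w ∧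
      GS Z.lt (Z.bl (1 : ℕ) (Z.lt 1 (a 1))) Z.E (Z.S 1 a) ((fun _ => 0) w) ∩ U = ∅}
    let F1 : ℕ → Set (Amb L Ω) := fun n => {x | ∃ a ∈ Z.E, ∃ w ∈ Icc (1 / 2 : ℝ) 1,
      x = pt Z.lt (n + 1) a w ∧
      GS Z.lt (Z.bl (n + 1 : ℕ) (Z.lt (n + 1) (a (n + 1)))) Z.E (Z.S (n + 1) a) (tent w) ∩ U = ∅}
    let F2 : ℕ → Set (Amb L Ω) := fun n => {x | ∃ a ∈ Z.E, ∃ w ∈ Icc (0 : ℝ) (1 / 2),
      x = pt Z.lt (n + 1) a w ∧
      GS Z.lt (Z.bl (n + 1 : ℕ) (Z.lt (n + 1) (a (n + 1)))) Z.E (Z.S (n + 1 + 1) a) (tent w) ∩ U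
        = ∅}
    have hF0 : IsClosed F0 := patch_compact hLSC Z hU 0 le_rfl (Or.inl rfl) isCompact_Icc
      continuous_const (fun x _ => ⟨le_rfl, zero_le_one⟩)
    have hF1 : ∀ n, IsClosed (F1 n) := fun n => patch_compact hLSC Z hU (n + 1)
      (Nat.le_add_left 1 n) (Or.inl rfl) isCompact_Icc continuous_tent
      (fun x hx => tent_mem ⟨by linarith [hx.1], hx.2⟩)
    have hF2 : ∀ n, IsClosed (F2 n) := fun n => patch_compact hLSC Z hU (n + 1)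
      (Nat.le_add_left 1 n) (Or.inr rfl) isCompact_Icc continuous_tent
      (fun x hx => tent_mem ⟨hx.1, by linarith [hx.2]⟩)
    have hF : IsClosed (F0 ∪ ⋃ n ∈ Iio N, (F1 n ∪ F2 n)) :=
      hF0.union ((finite_Iio N).isClosed_biUnion fun n _ => (hF1 n).union (hF2 n))
    have hlev : ∀ {n : ℕ} {a : ℕ → L} {w : ℝ}, w ∈ Icc (0 : ℝ) 1 →
        (1 : ℝ) / 2 ^ N < (pt Z.lt (n + 1) a w).1 → n < N := by
      intro n a w hw h
      by_contra hc
      push Not at hc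
      have h1 : hgt (n + 1) w ≤ 1 / 2 ^ (n + 1) := hgt_le hw.2
      have h2 : (1 : ℝ) / 2 ^ (n + 1) ≤ 1 / 2 ^ N := by
        apply one_div_le_one_div_of_le (by positivity)
        exact pow_le_pow_right₀ (by norm_num) (hc.trans (Nat.le_succ n))
      rw [pt_fst] at h
      linarith
    have hsub : {z : Amb L Ω | (1 : ℝ) / 2 ^ N < z.1} ∩ W ⊆
        F0 ∪ ⋃ n ∈ Iio N, (F1 n ∪ F2 n) := by
      rintro z ⟨hz1, hz2, V, hV, hVU⟩
      rcases hV with ⟨a, ha, w, hw, hz, rfl⟩ | ⟨n, hn, a, ha, w, hw, hz, rfl⟩ |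
        ⟨n, hn, a, ha, w, hw, hz, rfl⟩ | ⟨ω, r, hr, hz, rfl⟩
      · exact Or.inl ⟨a, ha, w, hw, hz, hVU⟩
      · obtain ⟨n, rfl⟩ : ∃ k, n = k + 1 := ⟨n - 1, by omega⟩
        subst hz
        have := hlev ⟨by linarith [hw.1], hw.2⟩ hz1
        exact Or.inr (mem_biUnion (x := n) this (Or.inl ⟨a, ha, w, hw, rfl, hVU⟩))
      · obtain ⟨n, rfl⟩ : ∃ k, n = k + 1 := ⟨n - 1, by omega⟩
        subst hz
        have := hlev ⟨hw.1, by linarith [hw.2]⟩ hz1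
        exact Or.inr (mem_biUnion (x := n) this (Or.inr ⟨a, ha, w, hw, rfl, hVU⟩))
      · subst hz
        have : (1 : ℝ) / 2 ^ N < 0 := hz1
        have h2 : (0 : ℝ) < 1 / 2 ^ N := by positivity
        linarith
    have hxF : x ∈ F0 ∪ ⋃ n ∈ Iio N, (F1 n ∪ F2 n) := by
      have h1 : x ∈ closure ({z : Amb L Ω | (1 : ℝ) / 2 ^ N < z.1} ∩ W) :=
        hO.inter_closure ⟨hN, hx⟩
      exact hF.closure_subset_iff.2 hsub h1
    refine ⟨hxM, ?_⟩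
    rcases hxF with ⟨a, ha, w, hw, hz, h⟩ | hxF
    · exact ⟨_, Or.inl ⟨a, ha, w, hw, hz, rfl⟩, h⟩
    · obtain ⟨n, hn, h⟩ := mem_iUnion₂.1 hxF
      rcases h with ⟨a, ha, w, hw, hz, h⟩ | ⟨a, ha, w, hw, hz, h⟩
      · exact ⟨_, Or.inr (Or.inl ⟨n + 1, Nat.le_add_left 1 n, a, ha, w, hw, hz, rfl⟩), h⟩
      · exact ⟨_, Or.inr (Or.inr (Or.inl ⟨n + 1, Nat.le_add_left 1 n, a, ha, w, hw, hz, rfl⟩)), h⟩
  · -- on the core
    obtain ⟨ω0, r, hr, rfl⟩ := exists_core_rep hxM hneg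
    by_contra hxW
    have hne : ∀ ω, cpt (L := L) ω0 r = cpt ω r →
        (GS Z.lt (Z.bl ⊤ ω) Z.E Z.E r ∩ U).Nonempty := by
      intro ω hω
      rw [Set.nonempty_iff_ne_empty]
      intro h
      exact hxW ⟨hxM, _, Or.inr (Or.inr (Or.inr ⟨ω, r, hr, hω, rfl⟩)), h⟩
    have hall : ∀ ω : Ω, ∃ n0 : ℕ, ∃ ε > 0, cpt (L := L) ω0 r = cpt ω r →
        ∀ τ' ∈ Icc (0 : ℝ) 1, |τ' - r| < ε →
        (GS Z.lt (Z.bl ⊤ ω) Z.E Z.E τ' ∩ U).Nonempty ∧
        ∀ n n' : ℕ, n0 ≤ n → (n' = n ∨ n' = n + 1) → ∀ a ∈ Z.E,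
          (GS Z.lt (Z.bl n ω) Z.E (Z.S n' a) τ' ∩ U).Nonempty := by
      intro ω
      by_cases hω : cpt (L := L) ω0 r = cpt ω r
      · obtain ⟨n0, ε, hε, h⟩ := hCore L Ω Z ω r hr U hU (hne ω hω)
        exact ⟨n0, ε, hε, fun _ => h⟩
      · exact ⟨0, 1, one_pos, fun h => (hω h).elim⟩
    choose n0 ε hε hprop using hall
    have hNe : Nonempty Ω := ⟨ω0⟩
    obtain ⟨ω1, hω1⟩ := Finite.exists_max n0
    obtain ⟨ω2, hω2⟩ := Finite.exists_min ε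
    have hε2 := hε ω2
    set ε' : ℝ := if 0 < r then min (ε ω2) (r / 2) else ε ω2 with hε'
    have hε'pos : 0 < ε' := by
      rw [hε']
      split_ifs with h
      · exact lt_min hε2 (by linarith)
      · exact hε2
    let O : Set (Amb L Ω) := {z | z.1 < 1 / 2 ^ (n0 ω1 + 2)} ∩
      ⋂ ω' : Ω, {z | |z.2.2 ω' - (cpt (L := L) ω0 r).2.2 ω'| < ε'}
    have hO : IsOpen O := by
      refine (isOpen_lt continuous_fst continuous_const).inter (isOpen_iInter_of_finite fun ω' => ?_)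
      refine isOpen_lt ?_ continuous_const
      have : Continuous (fun z : Amb L Ω => z.2.2 ω') :=
        (continuous_apply ω').comp (continuous_snd.comp continuous_snd)
      exact (this.sub continuous_const).abs
    have hxO : cpt (L := L) ω0 r ∈ O := by
      refine ⟨?_, ?_⟩
      · show (cpt (L := L) ω0 r).1 < 1 / 2 ^ (n0 ω1 + 2)
        rw [cpt_fst]
        positivity
      · refine mem_iInter.2 fun ω' => ?_
        show |(cpt (L := L) ω0 r).2.2 ω' - (cpt (L := L) ω0 r).2.2 ω'| < ε'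
        simpa using hε'pos
    obtain ⟨z, hzO, hzM, V, hV, hVU⟩ := mem_closure_iff.1 hx O hO hxO
    have hz1 : z.1 < 1 / 2 ^ (n0 ω1 + 2) := hzO.1
    have hz2 : ∀ ω', |z.2.2 ω' - (cpt (L := L) ω0 r).2.2 ω'| < ε' := fun ω' =>
      mem_iInter.1 hzO.2 ω'
    have hlev : ∀ {n : ℕ} {a : ℕ → L} {w : ℝ}, w ∈ Icc (0 : ℝ) 1 →
        z = pt Z.lt n a w → n0 ω1 + 2 ≤ n := by
      intro n a w hw h
      by_contra hc
      push Not at hc
      have h1 : 1 / 2 ^ (n + 1) ≤ hgt n w := hgt_ge hw.1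
      have h2 : (1 : ℝ) / 2 ^ (n0 ω1 + 2) ≤ 1 / 2 ^ (n + 1) := by
        apply one_div_le_one_div_of_le (by positivity)
        exact pow_le_pow_right₀ (by norm_num) hc
      rw [h, pt_fst] at hz1
      linarith
    have hfin : ∀ (n n' : ℕ) (a : ℕ → L) (w : ℝ), w ∈ Icc (0 : ℝ) 1 → a ∈ Z.E →
        z = pt Z.lt n a w → (n' = n ∨ n' = n + 1) →
        GS Z.lt (Z.bl n (Z.lt n (a n))) Z.E (Z.S n' a) (tent w) ∩ U = ∅ → False := by
      intro n n' a w hw ha hz hn' hemp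
      have hn := hlev hw hz
      have hst : ∀ ω', z.2.2 ω' = if ω' = Z.lt n (a n) then tent w else 0 := by
        intro ω'
        rw [hz, pt_star]
        have h1 : 1 ≤ n := by omega
        simp only [h1, true_and]
        by_cases h : Z.lt n (a n) = ω'
        · simp [h]
        · rw [if_neg h, if_neg (fun h' => h h'.symm)]
      obtain ⟨hc1, hc2⟩ := star_claim hr.1 hst hz2
      have hp := (hprop (Z.lt n (a n)) hc1 (tent w) (tent_mem hw)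
        (lt_of_lt_of_le hc2 (hω2 _))).2 n n' ((hω1 _).trans (by omega)) hn' a ha
      rw [hemp] at hp
      exact Set.not_nonempty_empty hp
    rcases hV with ⟨a, ha, w, hw, hz, rfl⟩ | ⟨n, hn, a, ha, w, hw, hz, rfl⟩ |
      ⟨n, hn, a, ha, w, hw, hz, rfl⟩ | ⟨ω, r', hr', hz, rfl⟩
    · have := hlev hw hz
      omega
    · exact hfin n n a w ⟨by linarith [hw.1], hw.2⟩ ha hz (Or.inl rfl) hVU
    · exact hfin n (n + 1) a w ⟨hw.1, by linarith [hw.2]⟩ ha hz (Or.inr rfl) hVU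
    · have hst : ∀ ω', z.2.2 ω' = if ω' = ω then r' else 0 := by
        intro ω'
        rw [hz, cpt_star]
      obtain ⟨hc1, hc2⟩ := star_claim hr.1 hst hz2
      have hp := (hprop ω hc1 r' hr' (lt_of_lt_of_le hc2 (hω2 _))).1
      rw [hVU] at hp
      exact Set.not_nonempty_empty hp

end Pool.Agent.Helper69.LD
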